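import Pool.Agent.H418R3.FB.Stmts

/-! # H418-FB TaskProj: supports and projections onto sets of blocks (helper471) -/

set_option autoImplicit false
open Set Topology Filter

namespace Pool.Agent.H418R3.FB

namespace ProjAux

/-- generators -/
def gen (σ : ℕ → List ℕ) (e : ℕ → ℕ → CR) (A : Set ℕ) : Set CR :=
  {x | ∃ b ∈ A, ∃ a, 0 < a ∧ a < (σ b).length ∧ x = e b a}

lemma XX_eq (σ : ℕ → List ℕ) (e : ℕ → ℕ → CR) (A : Set ℕ) :
    XX σ e A = (Submodule.span ℝ (gen σ e A)).topologicalClosure := rfl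

lemma gen_mono (σ : ℕ → List ℕ) (e : ℕ → ℕ → CR) {A B : Set ℕ} (h : A ⊆ B) :
    gen σ e A ⊆ gen σ e B := by
  rintro x ⟨b, hb, a, ha, hal, rfl⟩
  exact ⟨b, h hb, a, ha, hal, rfl⟩

lemma XX_mono (σ : ℕ → List ℕ) (e : ℕ → ℕ → CR) {A B : Set ℕ} (h : A ⊆ B) :
    XX σ e A ≤ XX σ e B :=
  Submodule.topologicalClosure_mono (Submodule.span_mono (gen_mono σ e h))

variable {σ : ℕ → List ℕ} {ξ : ℕ → ℕ → CR →L[ℝ] ℝ} {e : ℕ → ℕ → CR}

lemma supp (h : BSp σ ξ e) (A : Set ℕ) (g : CR) (hg : g ∈ XX σ e A) (b : ℕ) (hb : b ∉ A)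
    (a : ℕ) : ξ b a g = 0 := by
  have h1 : XX σ e A ≤ LinearMap.ker (ξ b a : CR →ₗ[ℝ] ℝ) := by
    rw [XX_eq]
    refine Submodule.topologicalClosure_minimal _ ?_ ?_
    · rw [Submodule.span_le]
      rintro x ⟨b', hb', a', ha', hal', rfl⟩
      show ξ b a (e b' a') = 0
      rw [h.ξe b' a' ha' hal', if_neg]
      rintro ⟨rfl, -⟩
      exact hb hb'
    · exact (ξ b a).isClosed_ker
  exact h1 hg

lemma span_proj (h : BSp σ ξ e) (A F : Set ℕ) (g : CR)
    (hg : g ∈ Submodule.span ℝ (gen σ e A)) :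
    ∃ g' ∈ Submodule.span ℝ (gen σ e A),
      (∀ b ∈ F, ∀ a, ξ b a g' = ξ b a g) ∧ ∀ b ∉ F, ∀ a, ξ b a g' = 0 := by
  classical
  induction hg using Submodule.span_induction with
  | mem x hx =>
    obtain ⟨b, hb, a, ha, hal, rfl⟩ := hx
    by_cases hF : b ∈ F
    · refine ⟨e b a, Submodule.subset_span ⟨b, hb, a, ha, hal, rfl⟩, fun _ _ _ => rfl,
        fun b' hb' a' => ?_⟩
      rw [h.ξe b a ha hal, if_neg]
      rintro ⟨rfl, -⟩
      exact hb' hF
    · refine ⟨0, zero_mem _, fun b' hb' a' => ?_, fun _ _ _ => map_zero _⟩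
      rw [map_zero, h.ξe b a ha hal, if_neg]
      rintro ⟨rfl, -⟩
      exact hF hb'
  | zero => exact ⟨0, zero_mem _, fun _ _ _ => rfl, fun _ _ _ => map_zero _⟩
  | add x y hx hy ihx ihy =>
    obtain ⟨x', hx', x1, x2⟩ := ihx
    obtain ⟨y', hy', y1, y2⟩ := ihy
    exact ⟨x' + y', add_mem hx' hy', fun b hb a => by rw [map_add, map_add, x1 b hb, y1 b hb],
      fun b hb a => by rw [map_add, x2 b hb, y2 b hb, add_zero]⟩
  | smul c x hx ih =>
    obtain ⟨x', hx', x1, x2⟩ := ih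
    exact ⟨c • x', Submodule.smul_mem _ c hx', fun b hb a => by rw [map_smul, map_smul, x1 b hb],
      fun b hb a => by rw [map_smul, x2 b hb, smul_zero]⟩

lemma bound (h : BSp σ ξ e) (F : Set ℕ) (d d' : CR) (hd : d ∈ XX σ e univ)
    (hd' : d' ∈ XX σ e univ) (h1 : ∀ b ∈ F, ∀ a, ξ b a d' = ξ b a d)
    (h2 : ∀ b ∉ F, ∀ a, ξ b a d' = 0) (k : ℕ) (M : ℝ) (hM : 0 ≤ M)
    (hb : ∀ t : ℝ, |t| ≤ k + 1 → |d t| ≤ M) : ∀ t : ℝ, |t| ≤ k → |d' t| ≤ M := by
  refine h.up d' hd' k M hM fun b a a' ha ha' => ?_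
  by_cases hF : b ∈ F
  · rw [h1 b hF, h1 b hF]
    exact h.dn d hd k M hb b a a' ha ha'
  · rw [h2 b hF, h2 b hF, sub_zero, abs_zero, mul_zero]
    exact hM

end ProjAux

open ProjAux in
theorem taskProj : TaskProj := by
  intro σ ξ e h A
  refine ⟨fun g hg => ⟨XX_mono σ e (subset_univ A) hg, fun b hb a => supp h A g hg b hb a⟩,
    fun F g hg => ?_⟩
  have hg' : g ∈ closure (Submodule.span ℝ (gen σ e A) : Set CR) := hg
  obtain ⟨u, hu, hug⟩ := mem_closure_iff_seq_limit.1 hg'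
  choose u' hu' h1 h2 using fun n => span_proj h A F (u n) (hu n)
  have hsp : ∀ x ∈ Submodule.span ℝ (gen σ e A), x ∈ XX σ e univ := fun x hx =>
    XX_mono σ e (subset_univ A) (Submodule.le_topologicalClosure _ hx)
  -- the sequence `u'` is Cauchy
  have hcau : CauchySeq u' := by
    rw [ContinuousMap.hasBasis_compactConvergenceUniformity.cauchySeq_iff]
    rintro ⟨K, V⟩ ⟨hK, hV⟩
    obtain ⟨δ, hδ, hδV⟩ := Metric.mem_uniformity_dist.1 hV
    obtain ⟨R, hR⟩ := hK.isBounded.exists_norm_le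
    obtain ⟨k, hk⟩ := exists_nat_ge R
    have hc := hug.cauchySeq
    rw [ContinuousMap.hasBasis_compactConvergenceUniformity.cauchySeq_iff] at hc
    obtain ⟨N, hN⟩ := hc (Icc (-((k : ℝ) + 1)) (k + 1), {p | dist p.1 p.2 < δ / 2})
      ⟨isCompact_Icc, Metric.dist_mem_uniformity (by positivity)⟩
    refine ⟨N, fun m hm n hn x hx => ?_⟩
    apply hδV
    have hb : ∀ t : ℝ, |t| ≤ k + 1 → |(u m - u n) t| ≤ δ / 2 := by
      intro t ht
      have := hN m hm n hn t (abs_le.1 ht)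
      rw [ContinuousMap.sub_apply, ← Real.dist_eq]
      exact le_of_lt this
    have := bound h F (u m - u n) (u' m - u' n) (sub_mem (hsp _ (hu m)) (hsp _ (hu n)))
      (sub_mem (hsp _ (hu' m)) (hsp _ (hu' n)))
      (fun b hb a => by rw [map_sub, map_sub, h1 m b hb, h1 n b hb])
      (fun b hb a => by rw [map_sub, h2 m b hb, h2 n b hb, sub_zero]) k (δ / 2) (by positivity) hb x
      ((hR x hx).trans hk)
    rw [ContinuousMap.sub_apply, ← Real.dist_eq] at this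
    linarith
  obtain ⟨g', hg'lim⟩ := cauchySeq_tendsto_of_complete hcau
  refine ⟨g', ?_, fun b hb a => ?_, fun b hb a => ?_⟩
  · show g' ∈ closure (Submodule.span ℝ (gen σ e A) : Set CR)
    exact mem_closure_of_tendsto hg'lim (Eventually.of_forall fun n => hu' n)
  · have e1 := ((ξ b a).continuous.tendsto g').comp hg'lim
    have e2 := ((ξ b a).continuous.tendsto g).comp hug
    refine tendsto_nhds_unique e1 (e2.congr fun n => ?_)
    exact (h1 n b hb a).symm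
  · have e1 := ((ξ b a).continuous.tendsto g').comp hg'lim
    refine tendsto_nhds_unique e1 (tendsto_const_nhds.congr fun n => ?_)
    exact (h2 n b hb a).symm

end Pool.Agent.H418R3.FB
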